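import Pool.Agent.Helper65.TU.Stmts

/-! Row CAMP of sheet TU (MP_5c2ead_an): amplification in `C_0(L)`. -/

set_option autoImplicit false

open Set Filter Topology

namespace Pool.Agent.Helper65.TU

universe u

namespace H32

/-- truncation to `[0, 1]` -/
noncomputable def cl (v : ℝ) : ℝ := max 0 (min v 1)

theorem cl_nonneg (v : ℝ) : 0 ≤ cl v := le_max_left _ _

theorem cl_le_one (v : ℝ) : cl v ≤ 1 := max_le zero_le_one (min_le_right _ _)

theorem cl_of_le {v : ℝ} (h : v ≤ 0) : cl v = 0 := by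
  unfold cl
  exact max_eq_left ((min_le_left _ _).trans h)

theorem cl_of_ge {v : ℝ} (h : 1 ≤ v) : cl v = 1 := by
  unfold cl
  rw [min_eq_right h]
  norm_num

theorem cl_mid {v : ℝ} (h0 : 0 ≤ v) (h1 : v ≤ 1) : cl v = v := by
  unfold cl
  rw [min_eq_left h1, max_eq_right h0]

theorem cl_lip (a b : ℝ) : |cl a - cl b| ≤ |a - b| := by
  unfold cl
  simp only [max_def, min_def]
  split_ifs <;> cases abs_cases (a - b) <;> rw [abs_le] <;> constructor <;> linarith

theorem cl_cont : Continuous cl := by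
  unfold cl
  fun_prop

theorem sum_cl (w : ℝ) (m : ℕ) :
    ∑ i ∈ Finset.range m, cl (w - i) = max 0 (min w m) := by
  induction m with
  | zero => simp
  | succ m ih =>
    rw [Finset.sum_range_succ, ih]
    have hm : (0 : ℝ) ≤ m := Nat.cast_nonneg m
    push_cast
    rcases le_total w m with h | h
    · rw [cl_of_le (by linarith), add_zero, min_eq_left h, min_eq_left (by linarith)]
    · rcases le_total w (m + 1) with h' | h'
      · rw [cl_mid (by linarith) (by linarith), min_eq_right h, min_eq_left h',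
          max_eq_right hm, max_eq_right (by linarith)]
        ring
      · rw [cl_of_ge (by linarith), min_eq_right h, min_eq_right h', max_eq_right hm,
          max_eq_right (by linarith)]

theorem diff_le (u a : ℝ) (h : |cl u - a| ≤ 1 / 4) :
    |cl u - cl (2 * (a - 1 / 4))| ≤ if 0 < u ∧ u < 1 then 1 else 0 := by
  rw [abs_le] at h
  split_ifs with hu
  · rw [abs_le]
    have h1 := cl_nonneg u
    have h2 := cl_le_one u
    have h3 := cl_nonneg (2 * (a - 1 / 4))
    have h4 := cl_le_one (2 * (a - 1 / 4))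
    constructor <;> linarith
  · rcases le_or_gt u 0 with h0 | h0
    · rw [cl_of_le h0] at h ⊢
      rw [cl_of_le (by linarith)]
      simp
    · have h1 : 1 ≤ u := by
        by_contra hlt
        exact hu ⟨h0, lt_of_not_ge hlt⟩
      rw [cl_of_ge h1] at h ⊢
      rw [cl_of_ge (by linarith)]
      simp

theorem sum_diff (w : ℝ) (m : ℕ) (a : ℕ → ℝ) (h : ∀ i < m, |cl (w - i) - a i| ≤ 1 / 4) :
    |∑ i ∈ Finset.range m, cl (w - i) - ∑ i ∈ Finset.range m, cl (2 * (a i - 1 / 4))| ≤ 1 := by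
  classical
  rw [← Finset.sum_sub_distrib]
  calc |∑ i ∈ Finset.range m, (cl (w - i) - cl (2 * (a i - 1 / 4)))|
      ≤ ∑ i ∈ Finset.range m, |cl (w - i) - cl (2 * (a i - 1 / 4))| :=
        Finset.abs_sum_le_sum_abs _ _
    _ ≤ ∑ i ∈ Finset.range m, (if 0 < w - i ∧ w - i < 1 then (1 : ℝ) else 0) :=
        Finset.sum_le_sum fun i hi => diff_le _ _ (h i (Finset.mem_range.1 hi))
    _ = (((Finset.range m).filter (fun i : ℕ => 0 < w - i ∧ w - i < 1)).card : ℝ) := by
        rw [Finset.sum_boole]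
    _ ≤ 1 := by
        have : ((Finset.range m).filter (fun i : ℕ => 0 < w - i ∧ w - i < 1)).card ≤ 1 := by
          rw [Finset.card_le_one]
          intro x hx y hy
          rw [Finset.mem_filter] at hx hy
          have h1 : (x : ℝ) < y + 1 := by linarith [hx.2.1, hy.2.2]
          have h2 : (y : ℝ) < x + 1 := by linarith [hy.2.1, hx.2.2]
          have h3 : x < y + 1 := by exact_mod_cast h1
          have h4 : y < x + 1 := by exact_mod_cast h2
          omega
        exact_mod_cast this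

theorem sum_zero (w : ℝ) (hw : w ≤ 0) (m : ℕ) (a : ℕ → ℝ)
    (h : ∀ i < m, |cl (w - i) - a i| ≤ 1 / 4) :
    ∑ i ∈ Finset.range m, cl (2 * (a i - 1 / 4)) = 0 := by
  refine Finset.sum_eq_zero fun i hi => ?_
  have h1 := h i (Finset.mem_range.1 hi)
  have h2 : (0 : ℝ) ≤ i := Nat.cast_nonneg i
  rw [cl_of_le (by linarith), abs_le] at h1
  exact cl_of_le (by linarith)

theorem point (m : ℕ) (hm : 0 < (m : ℝ)) (v : ℝ) (hv : |v| ≤ 1) (a b : ℕ → ℝ)
    (ha : ∀ i < m, |cl (m * v - i) - a i| ≤ 1 / 4)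
    (hb : ∀ i < m, |cl (-(m * v) - i) - b i| ≤ 1 / 4) :
    |v - (1 / (m : ℝ) * ∑ i ∈ Finset.range m, cl (2 * (a i - 1 / 4)) -
      1 / (m : ℝ) * ∑ i ∈ Finset.range m, cl (2 * (b i - 1 / 4)))| ≤ 1 / m := by
  have hv' := abs_le.1 hv
  rcases le_total 0 v with h0 | h0
  · have h1 : 0 ≤ (m : ℝ) * v := by positivity
    have h2 : (m : ℝ) * v ≤ m := by nlinarith
    rw [sum_zero (-(m * v)) (by linarith) m b hb]
    have h3 := sum_diff (m * v) m a ha
    rw [sum_cl, min_eq_left h2, max_eq_right h1] at h3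
    have h4 : v - (1 / (m : ℝ) * ∑ i ∈ Finset.range m, cl (2 * (a i - 1 / 4)) - 1 / (m : ℝ) * 0) =
        1 / (m : ℝ) * (m * v - ∑ i ∈ Finset.range m, cl (2 * (a i - 1 / 4))) := by
      field_simp
      ring_nf
    rw [h4, abs_mul, abs_of_pos (by positivity : (0 : ℝ) < 1 / m)]
    calc 1 / (m : ℝ) * |m * v - ∑ i ∈ Finset.range m, cl (2 * (a i - 1 / 4))|
        ≤ 1 / (m : ℝ) * 1 := mul_le_mul_of_nonneg_left h3 (by positivity)
      _ = 1 / m := mul_one _
  · have h1 : 0 ≤ -((m : ℝ) * v) := by nlinarith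
    have h2 : -((m : ℝ) * v) ≤ m := by nlinarith
    rw [sum_zero (m * v) (by linarith) m a ha]
    have h3 := sum_diff (-(m * v)) m b hb
    rw [sum_cl, min_eq_left h2, max_eq_right h1] at h3
    have h4 : v - (1 / (m : ℝ) * 0 - 1 / (m : ℝ) * ∑ i ∈ Finset.range m, cl (2 * (b i - 1 / 4))) =
        -(1 / (m : ℝ) * (-(m * v) - ∑ i ∈ Finset.range m, cl (2 * (b i - 1 / 4)))) := by
      field_simp
      ring_nf
    rw [h4, abs_neg, abs_mul, abs_of_pos (by positivity : (0 : ℝ) < 1 / m)]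
    calc 1 / (m : ℝ) * |-(m * v) - ∑ i ∈ Finset.range m, cl (2 * (b i - 1 / 4))|
        ≤ 1 / (m : ℝ) * 1 := mul_le_mul_of_nonneg_left h3 (by positivity)
      _ = 1 / m := mul_one _

section wc

variable {X : Type u} [NormedAddCommGroup X] [NormedSpace ℝ X]

theorem wc_biUnion (s : Finset ℕ) (S : ℕ → Set X) (h : ∀ i ∈ s, WCpt (S i)) :
    WCpt (⋃ i ∈ s, S i) := by
  unfold WCpt
  rw [image_iUnion₂]
  exact s.isCompact_biUnion h

theorem wc_union (A B : Set X) (hA : WCpt A) (hB : WCpt B) : WCpt (A ∪ B) := by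
  unfold WCpt
  rw [image_union]
  exact hA.union hB

theorem wc_lin2 (P Q : Set X) (c d : ℝ) (hP : WCpt P) (hQ : WCpt Q) :
    WCpt {y : X | ∃ p ∈ P, ∃ q ∈ Q, y = c • p + d • q} := by
  unfold WCpt at *
  have h1 : toWeakSpace ℝ X '' {y : X | ∃ p ∈ P, ∃ q ∈ Q, y = c • p + d • q} =
      (fun z : WeakSpace ℝ X × WeakSpace ℝ X => c • z.1 + d • z.2) ''
        ((toWeakSpace ℝ X '' P) ×ˢ (toWeakSpace ℝ X '' Q)) := by
    ext z
    constructor
    · rintro ⟨y, ⟨p, hp, q, hq, rfl⟩, rfl⟩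
      exact ⟨(toWeakSpace ℝ X p, toWeakSpace ℝ X q), ⟨⟨p, hp, rfl⟩, ⟨q, hq, rfl⟩⟩, by simp⟩
    · rintro ⟨⟨u, v⟩, ⟨⟨p, hp, rfl⟩, ⟨q, hq, rfl⟩⟩, rfl⟩
      exact ⟨c • p + d • q, ⟨p, hp, q, hq, rfl⟩, by simp⟩
  rw [h1]
  refine (hP.prod hQ).image ?_
  exact (continuous_fst.const_smul c).add (continuous_snd.const_smul d)

/-- sums of `k` elements of `P` -/
def SM (P : Set X) : ℕ → Set X
  | 0 => {0}
  | k + 1 => {y : X | ∃ p ∈ SM P k, ∃ q ∈ P, y = (1 : ℝ) • p + (1 : ℝ) • q}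

theorem wc_SM (P : Set X) (hP : WCpt P) (k : ℕ) : WCpt (SM P k) := by
  induction k with
  | zero =>
    show IsCompact (toWeakSpace ℝ X '' {0})
    rw [image_singleton]
    exact isCompact_singleton
  | succ k ih => exact wc_lin2 _ _ 1 1 ih hP

theorem sum_mem (P : Set X) (a : ℕ → X) (k : ℕ) (h : ∀ i < k, a i ∈ P) :
    ∑ i ∈ Finset.range k, a i ∈ SM P k := by
  induction k with
  | zero =>
    show ∑ i ∈ Finset.range 0, a i ∈ ({0} : Set X)
    simp
  | succ k ih =>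
    refine ⟨_, ih fun i hi => h i (by omega), a k, h k (by omega), ?_⟩
    rw [Finset.sum_range_succ, one_smul, one_smul]

end wc

section c0

variable {L : Type u} [TopologicalSpace L]

theorem norm_le_iff (x : ZeroAtInftyContinuousMap L ℝ) (C : ℝ) (hC : 0 ≤ C) :
    ‖x‖ ≤ C ↔ ∀ t, |x t| ≤ C := by
  rw [← ZeroAtInftyContinuousMap.norm_toBCF_eq_norm, BoundedContinuousFunction.norm_le hC]
  rfl

/-- composition -/
def cmpo (φ : ℝ → ℝ) (hc : Continuous φ) (h0 : φ 0 = 0) (x : ZeroAtInftyContinuousMap L ℝ) :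
    ZeroAtInftyContinuousMap L ℝ where
  toFun := fun t => φ (x t)
  continuous_toFun := hc.comp x.continuous
  zero_at_infty' := by
    have h1 := (hc.tendsto 0).comp x.zero_at_infty'
    rw [h0] at h1
    exact h1

theorem coe_sum (s : Finset ℕ) (a : ℕ → ZeroAtInftyContinuousMap L ℝ) (t : L) :
    (∑ i ∈ s, a i) t = ∑ i ∈ s, a i t := by
  classical
  induction s using Finset.induction_on with
  | empty => simp
  | insert i s hi ih => rw [Finset.sum_insert hi, Finset.sum_insert hi, ← ih]; rfl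

end c0

end H32

open H32

theorem st_CAMP (h1 : ST_C0.{u}) : ST_CAMP.{u} := by
  intro L _ _ _
  refine ⟨1 / 4, by norm_num, fun ε hε => ?_⟩
  obtain ⟨m, hm⟩ : ∃ m : ℕ, 1 / ε < m := exists_nat_gt _
  have hm0 : 0 < (m : ℝ) := lt_trans (by positivity) hm
  have hme : 1 / (m : ℝ) ≤ ε := by
    rw [div_le_iff₀ hm0]
    have := (div_lt_iff₀ hε).1 hm
    linarith
  have hA : ∀ (i : ℕ) (K : Set (ZeroAtInftyContinuousMap L ℝ)), WCpt K →
      WCpt {y : ZeroAtInftyContinuousMap L ℝ | ∃ x ∈ K, ∀ t, y t = cl (m * x t - i)} := by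
    intro i K hK
    refine h1 L K hK (fun v => cl (m * v - i)) m ?_ ?_
    · have : (0 : ℝ) ≤ i := Nat.cast_nonneg i
      exact cl_of_le (by linarith)
    · intro a b
      refine (cl_lip _ _).trans (le_of_eq ?_)
      rw [show (m : ℝ) * a - i - (m * b - i) = m * (a - b) by ring, abs_mul, abs_of_pos hm0]
  have hB : ∀ (i : ℕ) (K : Set (ZeroAtInftyContinuousMap L ℝ)), WCpt K →
      WCpt {y : ZeroAtInftyContinuousMap L ℝ | ∃ x ∈ K, ∀ t, y t = cl (-(m * x t) - i)} := by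
    intro i K hK
    refine h1 L K hK (fun v => cl (-(m * v) - i)) m ?_ ?_
    · have : (0 : ℝ) ≤ i := Nat.cast_nonneg i
      exact cl_of_le (by linarith)
    · intro a b
      refine (cl_lip _ _).trans (le_of_eq ?_)
      rw [show -((m : ℝ) * a) - i - (-(m * b) - i) = -(m * (a - b)) by ring, abs_neg, abs_mul,
        abs_of_pos hm0]
  have hP : ∀ (K : Set (ZeroAtInftyContinuousMap L ℝ)), WCpt K →
      WCpt {y : ZeroAtInftyContinuousMap L ℝ | ∃ x ∈ K, ∀ t, y t = cl (2 * (x t - 1 / 4))} := by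
    intro K hK
    refine h1 L K hK (fun v => cl (2 * (v - 1 / 4))) 2 ?_ ?_
    · exact cl_of_le (by norm_num)
    · intro a b
      refine (cl_lip _ _).trans (le_of_eq ?_)
      rw [show 2 * (a - 1 / 4) - 2 * (b - 1 / 4) = 2 * (a - b) by ring, abs_mul,
        abs_of_pos (by norm_num : (0 : ℝ) < 2)]
  refine ⟨fun K => ⋃ i ∈ Finset.range m,
    ({y : ZeroAtInftyContinuousMap L ℝ | ∃ x ∈ K, ∀ t, y t = cl (m * x t - i)} ∪
      {y : ZeroAtInftyContinuousMap L ℝ | ∃ x ∈ K, ∀ t, y t = cl (-(m * x t) - i)}), ?_, ?_⟩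
  · intro K hK _
    refine ⟨wc_biUnion _ _ fun i _ => wc_union _ _ (hA i K hK) (hB i K hK), ?_⟩
    intro y hy
    simp only [mem_iUnion, mem_union, mem_ofPred_eq] at hy
    obtain ⟨i, _, h | h⟩ := hy <;> obtain ⟨x, _, hx⟩ := h <;>
    · show ‖y‖ ≤ 1
      rw [norm_le_iff y 1 zero_le_one]
      intro t
      rw [hx t, abs_of_nonneg (cl_nonneg _)]
      exact cl_le_one _
  · intro Q hQ _
    obtain ⟨R, hR⟩ : ∃ R : Set (ZeroAtInftyContinuousMap L ℝ),
      R = {y : ZeroAtInftyContinuousMap L ℝ | ∃ x ∈ Q, ∀ t, y t = cl (2 * (x t - 1 / 4))} := ⟨_, rfl⟩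
    have hRw : WCpt R := by rw [hR]; exact hP Q hQ
    refine ⟨{y | ∃ p ∈ SM R m, ∃ q ∈ SM R m, y = (1 / (m : ℝ)) • p + (-(1 / (m : ℝ))) • q},
      wc_lin2 _ _ _ _ (wc_SM R hRw m) (wc_SM R hRw m), ?_⟩
    intro K _ hK1 hnear x hx
    have hxn : ∀ t, |x t| ≤ 1 := (norm_le_iff x 1 zero_le_one).1 (hK1 hx)
    have hphi : ∀ i : ℕ, Continuous (fun v : ℝ => cl (m * v - i)) := fun i =>
      cl_cont.comp (by fun_prop)
    have hphi' : ∀ i : ℕ, Continuous (fun v : ℝ => cl (-(m * v) - i)) := fun i =>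
      cl_cont.comp (by fun_prop)
    have hpsi : Continuous (fun v : ℝ => cl (2 * (v - 1 / 4))) := cl_cont.comp (by fun_prop)
    have hz : ∀ i : ℕ, cl (m * 0 - i) = 0 := fun i => by
      have : (0 : ℝ) ≤ i := Nat.cast_nonneg i
      exact cl_of_le (by linarith)
    have hz' : ∀ i : ℕ, cl (-(m * 0) - i) = 0 := fun i => by
      have : (0 : ℝ) ≤ i := Nat.cast_nonneg i
      exact cl_of_le (by linarith)
    have hzp : cl (2 * (0 - 1 / 4)) = 0 := cl_of_le (by norm_num)
    have ha : ∀ i : ℕ, ∃ l ∈ Q, i < m → ∀ t, |cl (m * x t - i) - l t| ≤ 1 / 4 := by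
      intro i
      by_cases hi : i < m
      · obtain ⟨l, hl, hd⟩ := hnear (cmpo _ (hphi i) (hz i) x) (by
          simp only [mem_iUnion]
          exact ⟨i, Finset.mem_range.2 hi, Or.inl ⟨x, hx, fun t => rfl⟩⟩)
        refine ⟨l, hl, fun _ t => ?_⟩
        exact (norm_le_iff _ _ (by norm_num)).1 hd t
      · obtain ⟨l, hl, _⟩ := hnear (cmpo _ (hphi 0) (hz 0) x) (by
          simp only [mem_iUnion]
          refine ⟨0, Finset.mem_range.2 ?_, Or.inl ⟨x, hx, fun t => rfl⟩⟩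
          exact_mod_cast hm0)
        exact ⟨l, hl, fun h => absurd h hi⟩
    have hb : ∀ i : ℕ, ∃ l ∈ Q, i < m → ∀ t, |cl (-(m * x t) - i) - l t| ≤ 1 / 4 := by
      intro i
      by_cases hi : i < m
      · obtain ⟨l, hl, hd⟩ := hnear (cmpo _ (hphi' i) (hz' i) x) (by
          simp only [mem_iUnion]
          exact ⟨i, Finset.mem_range.2 hi, Or.inr ⟨x, hx, fun t => rfl⟩⟩)
        refine ⟨l, hl, fun _ t => ?_⟩
        exact (norm_le_iff _ _ (by norm_num)).1 hd t
      · obtain ⟨l, hl, _⟩ := hnear (cmpo _ (hphi 0) (hz 0) x) (by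
          simp only [mem_iUnion]
          refine ⟨0, Finset.mem_range.2 ?_, Or.inl ⟨x, hx, fun t => rfl⟩⟩
          exact_mod_cast hm0)
        exact ⟨l, hl, fun h => absurd h hi⟩
    choose la hla hla' using ha
    choose lb hlb hlb' using hb
    refine ⟨_, ⟨∑ i ∈ Finset.range m, cmpo _ hpsi hzp (la i),
      sum_mem R (fun i => cmpo _ hpsi hzp (la i)) m (fun i _ => by
        rw [hR]; exact ⟨la i, hla i, fun t => rfl⟩),
      ∑ i ∈ Finset.range m, cmpo _ hpsi hzp (lb i),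
      sum_mem R (fun i => cmpo _ hpsi hzp (lb i)) m (fun i _ => by
        rw [hR]; exact ⟨lb i, hlb i, fun t => rfl⟩), rfl⟩, ?_⟩
    refine le_trans ?_ hme
    rw [norm_le_iff _ _ (by positivity)]
    intro t
    have h2 := point m hm0 (x t) (hxn t) (fun i => la i t) (fun i => lb i t)
      (fun i hi => hla' i hi t) (fun i hi => hlb' i hi t)
    convert h2 using 2
    simp only [ZeroAtInftyContinuousMap.coe_sub, ZeroAtInftyContinuousMap.coe_add,
      ZeroAtInftyContinuousMap.coe_smul, Pi.sub_apply, Pi.add_apply, Pi.smul_apply, coe_sum,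
      smul_eq_mul]
    rw [sub_eq_add_neg (1 / (m : ℝ) * _), ← neg_mul]
    rfl

end Pool.Agent.Helper65.TU
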